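import Mathlib

namespace Pool.Agent.Results.MP_1a6900_co.Theta

open scoped BigOperators

/-- The vertex set of the unit cube in Euclidean `n`-space. -/
def cube (n : ℕ) : Set (EuclideanSpace ℝ (Fin n)) := {x | ∀ i, x i = 0 ∨ x i = 1}

/-- The width of a set: the infimum over unit vectors `u` of
`sup ⟨u, x⟩ - inf ⟨u, x⟩` over the points `x` of the set. -/
noncomputable def width {n : ℕ} (C : Set (EuclideanSpace ℝ (Fin n))) : ℝ :=
  ⨅ u : Metric.sphere (0 : EuclideanSpace ℝ (Fin n)) 1,
    (sSup ((fun x => inner ℝ (u : EuclideanSpace ℝ (Fin n)) x) '' C) -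
      sInf ((fun x => inner ℝ (u : EuclideanSpace ℝ (Fin n)) x) '' C))

/-- A family of pairwise disjoint nonempty subsets of the cube whose convex hulls
all have width at least `t`. -/
def IsPacking (n : ℕ) (t : ℝ) (F : Finset (Set (EuclideanSpace ℝ (Fin n)))) : Prop :=
  (∀ A ∈ F, A.Nonempty ∧ A ⊆ cube n ∧ t ≤ width (convexHull ℝ A)) ∧
    ∀ A ∈ F, ∀ B ∈ F, A ≠ B → Disjoint A B

/-- The largest number of members of such a packing. -/
noncomputable def N (n : ℕ) (t : ℝ) : ℕ :=
  sSup {k : ℕ | ∃ F, IsPacking n t F ∧ F.card = k}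

noncomputable def emb {n : ℕ} (y : Fin n → ZMod 2) : EuclideanSpace ℝ (Fin n) :=
  WithLp.toLp 2 (fun i => if y i = 0 then (0 : ℝ) else 1)

lemma emb_apply {n : ℕ} (y : Fin n → ZMod 2) (i : Fin n) :
    emb y i = if y i = 0 then (0 : ℝ) else 1 := rfl

lemma zmod2 (x : ZMod 2) : x = 0 ∨ x = 1 := by
  revert x; decide

lemma emb_inj {n : ℕ} : Function.Injective (emb : (Fin n → ZMod 2) → _) := by
  intro y z h
  funext i
  have h1 : emb y i = emb z i := by rw [h]
  rw [emb_apply, emb_apply] at h1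
  rcases zmod2 (y i) with a | a <;> rcases zmod2 (z i) with b | b <;> simp_all

lemma cube_eq (n : ℕ) : cube n = Set.range (emb : (Fin n → ZMod 2) → _) := by
  ext x
  constructor
  · intro hx
    refine ⟨fun i => if x i = 0 then 0 else 1, ?_⟩
    ext i
    rw [emb_apply]
    rcases hx i with h | h <;> simp [h]
  · rintro ⟨y, rfl⟩ i
    rw [emb_apply]
    by_cases h : y i = 0 <;> simp [h]

lemma cube_finite (n : ℕ) : (cube n).Finite := by
  rw [cube_eq]; exact Set.finite_range _

lemma cube_ncard (n : ℕ) : (cube n).ncard = 2 ^ n := by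
  rw [cube_eq, Set.ncard_range_of_injective emb_inj]
  simp

lemma img_compact {n : ℕ} {A : Set (EuclideanSpace ℝ (Fin n))} (hA : A.Finite)
    (u : EuclideanSpace ℝ (Fin n)) :
    IsCompact ((fun x => inner ℝ u x) '' convexHull ℝ A) := by
  apply IsCompact.image (hA.isCompact_convexHull ℝ)
  fun_prop

lemma width_bdd {n : ℕ} {A : Set (EuclideanSpace ℝ (Fin n))} (hA : A.Finite) :
    BddBelow (Set.range fun u : Metric.sphere (0 : EuclideanSpace ℝ (Fin n)) 1 =>
    (sSup ((fun x => inner ℝ (u : EuclideanSpace ℝ (Fin n)) x) '' convexHull ℝ A) -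
      sInf ((fun x => inner ℝ (u : EuclideanSpace ℝ (Fin n)) x) '' convexHull ℝ A))) := by
  refine ⟨0, ?_⟩
  rintro _ ⟨u, rfl⟩
  have := Real.sInf_le_sSup _ (img_compact hA u).bddBelow (img_compact hA u).bddAbove
  simp only
  linarith

lemma card_ge {n : ℕ} {A : Set (EuclideanSpace ℝ (Fin n))} (hA : A.Finite) (hne : A.Nonempty)
    (hw : 0 < width (convexHull ℝ A)) : n + 1 ≤ A.ncard := by
  by_contra hlt
  push_neg at hlt
  obtain ⟨p, hp⟩ := hne
  -- the span of differences has small rank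
  let S : Finset (EuclideanSpace ℝ (Fin n)) := hA.toFinset
  have hScard : S.card = A.ncard := (Set.ncard_eq_toFinset_card A hA).symm
  have hpS : p ∈ S := by simpa [S] using hp
  classical
  let T : Finset (EuclideanSpace ℝ (Fin n)) := (S.erase p).image (fun x => x - p)
  have hT : T.card < n := by
    have h1 : T.card ≤ (S.erase p).card := Finset.card_image_le
    have h2 := Finset.card_erase_of_mem hpS
    have h3 : 0 < S.card := Finset.card_pos.mpr ⟨p, hpS⟩
    omega
  let W : Submodule ℝ (EuclideanSpace ℝ (Fin n)) := Submodule.span ℝ (T : Set _)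
  have hW : Module.finrank ℝ W < n := lt_of_le_of_lt (finrank_span_finset_le_card T) hT
  have hWo : Wᗮ ≠ ⊥ := by
    intro h
    have h1 := Submodule.finrank_add_finrank_orthogonal W
    rw [h] at h1
    simp at h1
    omega
  obtain ⟨v, hvW, hv0⟩ := Submodule.exists_mem_ne_zero_of_ne_bot hWo
  let u : EuclideanSpace ℝ (Fin n) := (‖v‖⁻¹ : ℝ) • v
  have hu : u ∈ Metric.sphere (0 : EuclideanSpace ℝ (Fin n)) 1 := by
    simp only [u, mem_sphere_iff_norm, sub_zero, norm_smul, norm_inv, norm_norm]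
    exact inv_mul_cancel₀ (norm_ne_zero_iff.mpr hv0)
  have huW : u ∈ Wᗮ := Submodule.smul_mem _ _ hvW
  have hconst : ∀ x ∈ A, inner ℝ u x = inner ℝ u p := by
    intro x hx
    by_cases hxp : x = p
    · rw [hxp]
    · have hmem : x - p ∈ W := by
        apply Submodule.subset_span
        simp only [T, Finset.coe_image, Set.mem_image, Finset.mem_coe, Finset.mem_erase]
        exact ⟨x, ⟨hxp, by simpa [S] using hx⟩, rfl⟩
      have := (Submodule.mem_orthogonal' W u).mp huW _ hmem
      rw [inner_sub_right] at this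
      linarith
  have hconv : ∀ x ∈ convexHull ℝ A, inner ℝ u x = inner ℝ u p := by
    have hc : Convex ℝ {x : EuclideanSpace ℝ (Fin n) | inner ℝ u x = inner ℝ u p} := by
      intro x hx y hy a b _ _ hab
      simp only [Set.mem_setOf_eq] at hx hy ⊢
      rw [inner_add_right, inner_smul_right, inner_smul_right, hx, hy, ← add_mul, hab, one_mul]
    exact fun x hx => convexHull_min hconst hc hx
  have himg : (fun x => inner ℝ u x) '' convexHull ℝ A = {inner ℝ u p} := by
    ext r
    constructor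
    · rintro ⟨x, hx, rfl⟩
      exact hconv x hx
    · rintro rfl
      exact ⟨p, subset_convexHull ℝ A hp, rfl⟩
  have hle := ciInf_le (width_bdd hA) ⟨u, hu⟩
  simp only [himg, csSup_singleton, csInf_singleton, sub_self] at hle
  exact absurd hw (not_lt.mpr hle)

lemma upper {n : ℕ} {t : ℝ} (ht : 0 < t) {F : Finset (Set (EuclideanSpace ℝ (Fin n)))}
    (hF : IsPacking n t F) : F.card * (n + 1) ≤ 2 ^ n := by
  classical
  have hfin : ∀ A ∈ F, A.Finite := fun A hA => (cube_finite n).subset (hF.1 A hA).2.1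
  let g : Set (EuclideanSpace ℝ (Fin n)) → Finset (EuclideanSpace ℝ (Fin n)) :=
    fun A => (cube_finite n).toFinset.filter (fun x => x ∈ A)
  have hg : ∀ A ∈ F, ((g A : Finset _) : Set _) = A := by
    intro A hA
    ext x
    simp only [g, Finset.coe_filter, Set.Finite.mem_toFinset, Set.mem_setOf_eq]
    exact ⟨fun h => h.2, fun h => ⟨(hF.1 A hA).2.1 h, h⟩⟩
  have h1 : (F.biUnion g).card = ∑ A ∈ F, (g A).card := by
    apply Finset.card_biUnion
    intro A hA B hB hAB
    have := hF.2 A hA B hB hAB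
    rw [Function.onFun, ← Finset.disjoint_coe, hg A hA, hg B hB]
    exact this
  have h2 : (F.biUnion g).card ≤ 2 ^ n := by
    rw [← cube_ncard n, Set.ncard_eq_toFinset_card _ (cube_finite n)]
    apply Finset.card_le_card
    intro x hx
    obtain ⟨A, _, hxA⟩ := Finset.mem_biUnion.mp hx
    exact (Finset.mem_filter.mp hxA).1
  have h3 : ∑ A ∈ F, (n + 1) ≤ ∑ A ∈ F, (g A).card := by
    apply Finset.sum_le_sum
    intro A hA
    have := card_ge (hfin A hA) (hF.1 A hA).1 (lt_of_lt_of_le ht (hF.1 A hA).2.2)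
    rw [← hg A hA, Set.ncard_coe_finset] at this
    exact this
  simp only [Finset.sum_const, smul_eq_mul] at h3
  omega

noncomputable def chi (x : ZMod 2) : ℝ := if x = 0 then 1 else -1

lemma chi_add (x y : ZMod 2) : chi (x + y) = chi x * chi y := by
  have h11 : (1 + 1 : ZMod 2) = 0 := by decide
  rcases zmod2 x with a | a <;> rcases zmod2 y with b | b <;> simp [chi, a, b, h11]

lemma chi_sq (x : ZMod 2) : chi x * chi x = 1 := by
  rcases zmod2 x with a | a <;> simp [chi, a]

lemma chi_orth {m : ℕ} (c : Fin m → ZMod 2) (hc : c ≠ 0) :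
    ∑ b : Fin m → ZMod 2, chi (b ⬝ᵥ c) = 0 := by
  obtain ⟨j, hj⟩ : ∃ j, c j ≠ 0 := by
    by_contra h
    push_neg at h
    exact hc (funext h)
  have hj1 : c j = 1 := (zmod2 (c j)).resolve_left hj
  have h1 := Equiv.sum_comp (Equiv.addRight (Pi.single j (1 : ZMod 2) : Fin m → ZMod 2))
    (fun b => chi (b ⬝ᵥ c))
  have h2 : ∀ b : Fin m → ZMod 2,
      chi (((Equiv.addRight (Pi.single j (1 : ZMod 2) : Fin m → ZMod 2)) b) ⬝ᵥ c)
        = - chi (b ⬝ᵥ c) := by
    intro b
    simp only [Equiv.coe_addRight, add_dotProduct, single_dotProduct, one_mul, hj1, chi_add]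
    simp [chi]
  simp only [h2, Finset.sum_neg_distrib] at h1
  linarith

/-- The punctured first order Reed-Muller encoding map. -/
def phi {n m : ℕ} (a : Fin n → Fin m → ZMod 2) :
    ((Fin m → ZMod 2) × ZMod 2) →+ (Fin n → ZMod 2) where
  toFun p := fun i => p.1 ⬝ᵥ a i + p.2
  map_zero' := by funext i; simp
  map_add' p q := by
    funext i
    simp only [Prod.fst_add, Prod.snd_add, add_dotProduct, Pi.add_apply]
    ring

lemma exists_big {n m : ℕ} (a : Fin n → Fin m → ZMod 2) (ha : Function.Injective a)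
    (x : Fin n → ZMod 2) (u : Fin n → ℝ) (hu : ∑ i, u i ^ 2 = 1) :
    ∃ b : Fin m → ZMod 2, 1 ≤ (∑ i, u i * chi (x i + b ⬝ᵥ a i)) ^ 2 := by
  have key : ∑ b : Fin m → ZMod 2, (∑ i, u i * chi (x i + b ⬝ᵥ a i)) ^ 2
      = ∑ _b : Fin m → ZMod 2, (1 : ℝ) := by
    have h1 : ∀ b : Fin m → ZMod 2, (∑ i, u i * chi (x i + b ⬝ᵥ a i)) ^ 2
        = ∑ i, ∑ j, (u i * u j * chi (x i) * chi (x j)) * chi (b ⬝ᵥ (a i + a j)) := by
      intro b
      rw [sq, Finset.sum_mul_sum]
      refine Finset.sum_congr rfl fun i _ => Finset.sum_congr rfl fun j _ => ?_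
      rw [dotProduct_add, chi_add, chi_add, chi_add]
      ring
    simp only [h1]
    rw [Finset.sum_comm]
    have h2 : ∀ i, ∑ b : Fin m → ZMod 2, ∑ j,
        (u i * u j * chi (x i) * chi (x j)) * chi (b ⬝ᵥ (a i + a j))
        = ∑ _b : Fin m → ZMod 2, u i ^ 2 := by
      intro i
      rw [Finset.sum_comm]
      rw [Finset.sum_eq_single i]
      · refine Finset.sum_congr rfl fun b _ => ?_
        have : a i + a i = 0 := by
          funext k
          exact CharTwo.add_self_eq_zero _
        rw [this, dotProduct_zero]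
        have h3 := chi_sq (x i)
        have h4 : chi 0 = 1 := by simp [chi]
        rw [h4]
        calc u i * u i * chi (x i) * chi (x i) * 1 = u i ^ 2 * (chi (x i) * chi (x i)) := by ring
          _ = u i ^ 2 := by rw [h3, mul_one]
      · intro j _ hj
        rw [← Finset.mul_sum, chi_orth, mul_zero]
        intro h
        apply hj
        apply ha
        funext k
        have h5 : a i k + a j k = 0 := congrFun h k
        have h6 : a i k + a i k = 0 := CharTwo.add_self_eq_zero _
        exact add_left_cancel (h5.trans h6.symm)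
      · simp
    simp only [h2]
    rw [Finset.sum_comm]
    simp only [hu]
  by_contra h
  push_neg at h
  have := Finset.sum_lt_sum_of_nonempty (s := (Finset.univ : Finset (Fin m → ZMod 2)))
    Finset.univ_nonempty (fun b _ => h b)
  linarith

lemma inner_emb {n : ℕ} (u : EuclideanSpace ℝ (Fin n)) (y : Fin n → ZMod 2) :
    inner ℝ u (emb (y + fun _ => 1)) - inner ℝ u (emb y) = ∑ i, u i * chi (y i) := by
  rw [PiLp.inner_apply, PiLp.inner_apply, ← Finset.sum_sub_distrib]
  refine Finset.sum_congr rfl fun i _ => ?_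
  have h11 : (1 + 1 : ZMod 2) = 0 := by decide
  rcases zmod2 (y i) with h | h <;> simp [emb_apply, chi, h, h11]

lemma lower {n : ℕ} (hn : 1 ≤ n) {t : ℝ} (ht : t ≤ 1) :
    ∃ F, IsPacking n t F ∧ 2 ^ n ≤ F.card * (4 * n) := by
  classical
  set m := Nat.clog 2 n with hm
  have hm1 : n ≤ 2 ^ m := Nat.le_pow_clog (by norm_num) n
  have hm2 : 2 ^ m ≤ 2 * n := by
    rcases Nat.eq_or_lt_of_le hn with h | h
    · subst h
      simp [hm]
    · have h1 := Nat.pow_pred_clog_lt_self (b := 2) (by norm_num) h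
      have h2 : 0 < Nat.clog 2 n := Nat.clog_pos (by norm_num) h
      have h3 : 2 ^ m = 2 * 2 ^ (Nat.clog 2 n).pred := by
        rw [← pow_succ', hm]
        congr 1
        exact (Nat.succ_pred_eq_of_pos h2).symm
      omega
  obtain ⟨a⟩ : Nonempty (Fin n ↪ (Fin m → ZMod 2)) := by
    apply Function.Embedding.nonempty_of_card_le
    simpa using hm1
  let H : AddSubgroup (Fin n → ZMod 2) := (phi a).range
  have hH : Nat.card H ≤ 4 * n := by
    have h1 : Nat.card H ≤ Nat.card ((Fin m → ZMod 2) × ZMod 2) :=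
      Nat.card_le_card_of_surjective _ (phi a).rangeRestrict_surjective
    simp only [Nat.card_eq_fintype_card, Fintype.card_prod, Fintype.card_pi, ZMod.card,
      Finset.prod_const, Finset.card_univ, Fintype.card_fin] at h1
    rw [Nat.card_eq_fintype_card]
    omega
  have hQ : 2 ^ n = Nat.card ((Fin n → ZMod 2) ⧸ H) * Nat.card H := by
    rw [← AddSubgroup.card_eq_card_quotient_mul_card_addSubgroup]
    simp
  let A : ((Fin n → ZMod 2) ⧸ H) → Set (EuclideanSpace ℝ (Fin n)) :=
    fun q => emb '' {y | (QuotientAddGroup.mk y : (Fin n → ZMod 2) ⧸ H) = q}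
  have hdisj : ∀ q q', q ≠ q' → Disjoint (A q) (A q') := by
    intro q q' hq
    rw [Set.disjoint_left]
    rintro _ ⟨y, hy, rfl⟩ ⟨z, hz, hzy⟩
    have := emb_inj hzy
    subst this
    exact hq (hy.symm.trans hz)
  have hne : ∀ q, (A q).Nonempty := by
    intro q
    obtain ⟨y, rfl⟩ := QuotientAddGroup.mk_surjective q
    exact ⟨emb y, y, rfl, rfl⟩
  have hAinj : Function.Injective A := by
    intro q q' h
    by_contra hq
    have := hdisj q q' hq
    rw [h, disjoint_self] at this
    exact (hne q').ne_empty this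
  have hsub : ∀ q, A q ⊆ cube n := by
    rintro q _ ⟨y, _, rfl⟩
    rw [cube_eq]
    exact ⟨y, rfl⟩
  haveI : Fintype ((Fin n → ZMod 2) ⧸ H) := Fintype.ofFinite _
  refine ⟨Finset.univ.image A, ⟨?_, ?_⟩, ?_⟩
  · intro B hB
    obtain ⟨q, _, rfl⟩ := Finset.mem_image.mp hB
    refine ⟨hne q, hsub q, le_trans ht ?_⟩
    have hfin : (A q).Finite := (cube_finite n).subset (hsub q)
    haveI : Nonempty (Metric.sphere (0 : EuclideanSpace ℝ (Fin n)) 1) := by
      refine ⟨⟨EuclideanSpace.single ⟨0, hn⟩ 1, ?_⟩⟩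
      simp
    apply le_ciInf
    rintro ⟨u, hu⟩
    obtain ⟨x, rfl⟩ := QuotientAddGroup.mk_surjective q
    have hu1 : ∑ i, u i ^ 2 = 1 := by
      have h1 : ‖u‖ = 1 := by simpa using hu
      have h2 := EuclideanSpace.real_norm_sq_eq u
      rw [h1] at h2
      linarith
    obtain ⟨b, hb⟩ := exists_big a a.injective x (fun i => u i) hu1
    let y : Fin n → ZMod 2 := x + phi a (b, 0)
    have hy : ∀ β : ZMod 2, emb (x + phi a (b, β)) ∈ convexHull ℝ (A (QuotientAddGroup.mk x)) := by
      intro β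
      apply subset_convexHull
      refine ⟨_, ?_, rfl⟩
      simp only [Set.mem_setOf_eq]
      rw [QuotientAddGroup.mk_add_of_mem]
      exact ⟨_, rfl⟩
    have hy1 : x + phi a (b, 1) = y + fun _ => 1 := by
      funext i
      simp [y, phi, add_assoc]
    have hyi : ∀ i, y i = x i + b ⬝ᵥ a i := by
      intro i
      simp [y, phi]
    have e1 := inner_emb u y
    simp only [hyi] at e1
    rw [← e1] at hb
    have m0 := hy 0
    have m1 := hy 1
    rw [hy1] at m1
    have c := img_compact hfin u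
    have s0 := le_csSup c.bddAbove ⟨_, m0, rfl⟩
    have s1 := le_csSup c.bddAbove ⟨_, m1, rfl⟩
    have i0 := csInf_le c.bddBelow ⟨_, m0, rfl⟩
    have i1 := csInf_le c.bddBelow ⟨_, m1, rfl⟩
    simp only at s0 s1 i0 i1 ⊢
    have hb' : 1 ≤ |inner ℝ u (emb (y + fun _ => 1)) - inner ℝ u (emb y)| := by
      rw [← sq_le_sq₀ (by norm_num) (abs_nonneg _), sq_abs, one_pow]
      exact hb
    change inner ℝ u (emb y) ≤ _ at s0
    change _ ≤ inner ℝ u (emb y) at i0
    rcases le_abs'.mp hb' with h | h <;> linarith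
  · intro B hB C hC hBC
    obtain ⟨q, _, rfl⟩ := Finset.mem_image.mp hB
    obtain ⟨q', _, rfl⟩ := Finset.mem_image.mp hC
    exact hdisj q q' (fun h => hBC (by rw [h]))
  · rw [Finset.card_image_of_injective _ hAinj, Finset.card_univ, ← Nat.card_eq_fintype_card, hQ]
    exact Nat.mul_le_mul_left _ hH

theorem result (t : ℝ) (ht0 : 0 < t) (ht1 : t ≤ 1) (n : ℕ) (hn : 1 ≤ n) :
    (2 : ℝ) ^ n / (4 * n) ≤ (N n t : ℝ) ∧ (N n t : ℝ) ≤ (2 : ℝ) ^ n / (n + 1) := by
  have hbdd : BddAbove {k : ℕ | ∃ F, IsPacking n t F ∧ F.card = k} := by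
    refine ⟨2 ^ n, ?_⟩
    rintro _ ⟨F, hF, rfl⟩
    have := upper ht0 hF
    nlinarith
  obtain ⟨F, hF, hc⟩ := lower hn ht1
  have hne : {k : ℕ | ∃ F, IsPacking n t F ∧ F.card = k}.Nonempty := ⟨_, F, hF, rfl⟩
  have hnpos : (0 : ℝ) < n := by exact_mod_cast hn
  constructor
  · have h1 : F.card ≤ N n t := le_csSup hbdd ⟨F, hF, rfl⟩
    rw [div_le_iff₀ (by positivity)]
    have h2 : 2 ^ n ≤ N n t * (4 * n) := le_trans hc (Nat.mul_le_mul_right _ h1)
    exact_mod_cast h2
  · obtain ⟨G, hG, hGc⟩ := Nat.sSup_mem hne hbdd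
    rw [le_div_iff₀ (by positivity)]
    have h2 := upper ht0 hG
    rw [hGc] at h2
    exact_mod_cast h2

end Pool.Agent.Results.MP_1a6900_co.Theta
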